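import Pool.Agent.Lib.MP_688fd0_co.ASY.TB.Iface
import Pool.Agent.Lib.MP_688fd0_co.LP.ConnBasic
import Pool.Agent.Lib.MP_688fd0_co.LIN.H28.Omega
import Pool.Agent.Lib.MP_688fd0_co.LIN.H89.Base

/-!
TB-NEAR.
-/

set_option autoImplicit false

namespace Pool.Agent.Lib.MP_688fd0_co.ASY.H89

open Classical
open Pool.Agent.Lib.MP_688fd0_co.LP (IsP IsPB Conn Cyc Symm cay)
open Pool.Agent.Lib.MP_688fd0_co.LIN
open Pool.Agent.Lib.MP_688fd0_co.LIN.H28

universe u

theorem near_mem_sl {V : Type u} [Fintype V] {G : SimpleGraph V} {γ : ℕ → V} {w D a b : ℕ} {x : V} :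
    x ∈ sl G γ w D a b ↔ x ∈ om G γ w D ∧ a ≤ G.dist (γ 0) x ∧ G.dist (γ 0) x ≤ b := by
  simp [sl]

/-- TB-NEAR -/
theorem near : NearStatement.{u} := by
  intro V _ G r w D γ hO
  obtain ⟨om1, om2, -, om4⟩ := omega_st LIN.H89.line LIN.H89.base V G r w D γ hO
  obtain ⟨hvt, hw, hlin, hg, hD⟩ := hO
  have hc := hvt.conn
  have hw1 : 1 ≤ w := by omega
  have hnb : ∀ {x y : V}, G.Adj x y → G.dist (γ 0) y ≤ G.dist (γ 0) x + 1 ∧ G.dist (γ 0) x ≤ G.dist (γ 0) y + 1 := by
    intro x y h
    have h1 : G.dist x y = 1 := SimpleGraph.dist_eq_one_iff_adj.2 h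
    have h2 : G.dist y x = 1 := SimpleGraph.dist_eq_one_iff_adj.2 h.symm
    have h3 := hc.dist_triangle (u := γ 0) (v := x) (w := y)
    have h4 := hc.dist_triangle (u := γ 0) (v := y) (w := x)
    omega
  have hself : ∀ t, 15 * w ≤ t → t + 15 * w ≤ D → γ t ∈ om G γ w D := fun t h1 h2 =>
    mem_om.2 ⟨t, h1, h2, by simp⟩
  refine ⟨?_, fun t ht => geo0 hg ht, hself, ?_, ?_, ?_, ?_⟩
  · intro x hx
    obtain ⟨t, h1, h2, h3⟩ := mem_om.1 hx
    obtain ⟨h4, h5⟩ := height_close hc hg (by omega) h3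
    refine ⟨by omega, ?_⟩
    have h6 : G.dist (γ t) (γ (G.dist (γ 0) x)) ≤ w := by
      rcases le_total t (G.dist (γ 0) x) with hle | hle
      · have := hg t _ hle (by omega)
        omega
      · have := hg _ t hle (by omega)
        rw [SimpleGraph.dist_comm] at this
        omega
    have h7 := hc.dist_triangle (u := x) (v := γ t) (w := γ (G.dist (γ 0) x))
    omega
  · intro t s x h1 h2 h3
    have hst := geo0 hg (t := t) (by omega)
    have hh : ∀ y, G.dist (γ t) y ≤ s → t ≤ G.dist (γ 0) y + s ∧ G.dist (γ 0) y ≤ t + s := by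
      intro y hy
      have h4 := hc.dist_triangle (u := γ 0) (v := γ t) (w := y)
      have h5 := hc.dist_triangle (u := γ 0) (v := y) (w := γ t)
      have h6 : G.dist (γ t) y = G.dist y (γ t) := SimpleGraph.dist_comm
      omega
    have key : ∀ n, n ≤ s → ∀ y, G.dist (γ t) y ≤ n → y ∈ om G γ w D := by
      intro n
      induction n with
      | zero =>
        intro _ y hy
        have h4 : G.dist (γ t) y = 0 := by omega
        rw [hc.dist_eq_zero_iff] at h4
        rw [← h4]
        exact hself t (by omega) (by omega)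
      | succ n ih =>
        intro hn y hy
        by_cases h4 : G.dist (γ t) y ≤ n
        · exact ih (by omega) y h4
        · obtain ⟨p, hp⟩ := hc.exists_walk_length_eq_dist y (γ t)
          have h5 : G.dist y (γ t) = n + 1 := by
            rw [SimpleGraph.dist_comm]
            omega
          cases p with
          | nil =>
            rw [SimpleGraph.dist_self] at h5
            omega
          | @cons _ z _ hadj q =>
            rw [SimpleGraph.Walk.length_cons] at hp
            have h6 : G.dist z (γ t) ≤ q.length := SimpleGraph.dist_le _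
            have h7 : G.dist (γ t) z ≤ n := by
              rw [SimpleGraph.dist_comm]
              omega
            have h8 := ih (by omega) z h7
            obtain ⟨h9, h10⟩ := hh z (by omega)
            exact om1 z h8 (by omega) (by omega) y hadj.symm
    exact ⟨key s le_rfl x h3, hh x h3⟩
  · intro a b ha hb x hx y hadj
    obtain ⟨hx1, hx2, hx3⟩ := near_mem_sl.1 hx
    obtain ⟨h1, h2⟩ := hnb hadj
    exact ⟨om1 x hx1 (by omega) (by omega) y hadj, by omega, by omega⟩
  · intro a b x hx y hy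
    obtain ⟨hx1, hx2, hx3⟩ := near_mem_sl.1 hx
    obtain ⟨hy1, hy2, hy3⟩ := near_mem_sl.1 hy
    obtain ⟨l, hl, h1, h2, h3⟩ := om4 a b x hx1 y hy1 hx2 hy2 hx3 hy3
    refine IsPB.conn (l := l) ⟨hl, h1, h2⟩ ?_
    intro v hv
    obtain ⟨h4, h5, h6⟩ := h3 v hv
    exact near_mem_sl.2 ⟨h4, by omega, h6⟩
  · intro a b hab
    exact om2 a b hab

end Pool.Agent.Lib.MP_688fd0_co.ASY.H89
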